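import Pool.Agent.Helper88_Sob.A1

/-!
# Module A2 of MP_60fe1d_an: chains of cells are uniformly affinely independent
-/

set_option autoImplicit false

open Set Filter Topology Metric MeasureTheory

namespace Pool.Agent.Helper88Sob

open Pool.Agent.Helper27Sob

lemma chain_lt {C : Set E} {F T : Cell} (hF : IsC C F) (hT : IsC C T)
    (h : F.carrier ⊆ T.carrier) (hne : F ≠ T) : F.dim < T.dim ∧ F.center ∉ T.inner := by
  have h1 := carrier_cell hT hF (h (inner_subset_carrier (center_mem_inner F)))
    (center_mem_inner F)
  refine ⟨h1.2.1.resolve_left hne, fun hin => hne ?_⟩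
  exact cell_unique hF hT (center_mem_inner F) hin

/-- the separating coordinate -/
lemma exists_coord {C : Set E} {F T : Cell} (hF : IsC C F) (hT : IsC C T)
    (h : F.carrier ⊆ T.carrier) (hne : F ≠ T) :
    ∃ (j : Fin 5) (σ : ℝ), |σ| = 1 ∧ ∀ x ∈ F.carrier, x j = T.center j + σ * (T.len / 2) := by
  have hcar : F.center ∈ T.carrier := h (inner_subset_carrier (center_mem_inner F))
  have hin := (chain_lt hF hT h hne).2
  have hex : ∃ j, ¬ (if Odd (T.q j) then |F.center j - T.center j| < T.len / 2 else
      F.center j = T.center j) := by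
    by_contra hcon
    push Not at hcon
    exact hin hcon
  obtain ⟨j, hj⟩ := hex
  have hcj := hcar j
  by_cases ho : Odd (T.q j)
  · rw [if_pos ho] at hj hcj
    have heq : |F.center j - T.center j| = T.len / 2 := le_antisymm hcj (not_lt.mp hj)
    obtain ⟨σ, hσ, hσe⟩ : ∃ σ : ℝ, |σ| = 1 ∧ F.center j = T.center j + σ * (T.len / 2) := by
      rcases abs_choice (F.center j - T.center j) with h1 | h1
      · exact ⟨1, by simp, by rw [h1] at heq; linarith⟩
      · exact ⟨-1, by simp, by rw [h1] at heq; linarith⟩
    refine ⟨j, σ, hσ, ?_⟩
    have hodd : ¬ Odd (F.q j) := by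
      intro hF1
      set p : E := Function.update F.center j (F.center j + σ * (F.len / 2)) with hp
      have hpF : p ∈ F.carrier := by
        intro k
        by_cases hk : k = j
        · subst hk
          rw [hp, Function.update_self, if_pos hF1, add_sub_cancel_left, abs_mul, hσ, one_mul,
            abs_of_pos (by have := len_pos F; linarith)]
        · rw [hp, Function.update_of_ne hk, sub_self, abs_zero]
          split_ifs
          · have := len_pos F; linarith
          · exact le_rfl
      have hpT := h hpF j
      rw [if_pos ho, hp, Function.update_self, hσe] at hpT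
      have : T.center j + σ * (T.len / 2) + σ * (F.len / 2) - T.center j =
          σ * ((T.len + F.len) / 2) := by ring
      rw [this, abs_mul, hσ, one_mul, abs_of_pos (by
        have := len_pos F; have := len_pos T; linarith)] at hpT
      have := len_pos F
      linarith
    intro x hx
    have hxj := hx j
    rw [if_neg hodd] at hxj
    have := abs_nonpos_iff.mp hxj
    linarith
  · rw [if_neg ho] at hj hcj
    exact absurd (by have := abs_nonpos_iff.mp hcj; linarith) hj

lemma center_dist {F T : Cell} (h : F.carrier ⊆ T.carrier) :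
    ‖F.center - T.center‖ ≤ T.len / 2 := by
  have hL := len_pos T
  rw [pi_norm_le_iff_of_nonneg (by linarith)]
  intro j
  have := h (inner_subset_carrier (center_mem_inner F)) j
  rw [Pi.sub_apply, Real.norm_eq_abs]
  refine this.trans ?_
  split_ifs <;> linarith

lemma a2_aux {C : Set E} : ∀ d : ℕ, ∀ s : Finset Cell, IsCh C (s : Set Cell) →
    ∀ T ∈ s, T.dim ≤ d → (∀ F ∈ s, F.carrier ⊆ T.carrier) → ∀ l : ℝ, 0 < l →
    (∀ F ∈ s, l ≤ F.len) → ∀ v : Cell → ℝ, ∑ F ∈ s, v F = 0 →
    ∀ F ∈ s, |v F| * l ≤ (2 ^ (d + 1) - 2) * ‖∑ G ∈ s, v G • G.center‖ := by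
  classical
  intro d
  induction d with
  | zero =>
    intro s hs T hT hTd htop l hl hlen v hv F hF
    have hall : ∀ G ∈ s, G = T := by
      intro G hG
      by_contra hne
      have := (chain_lt (hs.1 G hG) (hs.1 T hT) (htop G hG) hne).1
      omega
    have hsT : s = {T} := by
      ext G
      rw [Finset.mem_singleton]
      exact ⟨hall G, fun h => h ▸ hT⟩
    rw [hsT, Finset.sum_singleton] at hv
    rw [hall F hF, hv]
    simp
  | succ d ih =>
    intro s hs T hT hTd htop l hl hlen v hv F hF
    set N := ‖∑ G ∈ s, v G • G.center‖ with hN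
    have hN0 : 0 ≤ N := norm_nonneg _
    have hpow : (0 : ℝ) ≤ 2 ^ (d + 1) - 2 := by
      have : (2 : ℝ) ^ 1 ≤ 2 ^ (d + 1) := pow_le_pow_right₀ (by norm_num) (by omega)
      linarith
    rcases (s.erase T).eq_empty_or_nonempty with he | hne
    · have hsT : s = {T} := by
        rw [← Finset.insert_erase hT, he]; rfl
      rw [hsT, Finset.sum_singleton] at hv
      have : F = T := by rw [hsT] at hF; exact Finset.mem_singleton.mp hF
      rw [this, hv, abs_zero, zero_mul]
      refine mul_nonneg ?_ hN0
      have : (2 : ℝ) ^ 1 ≤ 2 ^ (d + 1 + 1) := pow_le_pow_right₀ (by norm_num) (by omega)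
      linarith
    · obtain ⟨T', hT', hmax⟩ := Finset.exists_max_image (s.erase T) Cell.dim hne
      have hT's : T' ∈ s := Finset.mem_of_mem_erase hT'
      have hT'T : T' ≠ T := Finset.ne_of_mem_erase hT'
      have htop' : ∀ G ∈ s.erase T, G.carrier ⊆ T'.carrier := by
        intro G hG
        rcases hs.2 G (Finset.mem_of_mem_erase hG) T' hT's with h | h | h
        · rw [h]
        · exact h.2
        · exact absurd (hmax G hG) (by omega)
      have hch' : IsCh C ((s.erase T : Finset Cell) : Set Cell) :=
        ⟨fun G hG => hs.1 G (Finset.mem_of_mem_erase hG),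
          fun G hG H hH => hs.2 G (Finset.mem_of_mem_erase hG) H (Finset.mem_of_mem_erase hH)⟩
      obtain ⟨j, σ, hσ, hcoord⟩ := exists_coord (hs.1 T' hT's) (hs.1 T hT) (htop T' hT's) hT'T
      have hLT := len_pos T
      -- the coordinate `j` of the sum
      have hsplit : ∀ f : Cell → ℝ, ∑ G ∈ s, f G = f T + ∑ G ∈ s.erase T, f G :=
        fun f => (Finset.add_sum_erase s f hT).symm
      have hvT : |v T| * (T.len / 2) ≤ N := by
        have h1 : (∑ G ∈ s, v G • G.center) j = -(v T * (σ * (T.len / 2))) := by
          rw [Finset.sum_apply]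
          simp only [Pi.smul_apply, smul_eq_mul]
          rw [hsplit (fun G => v G * G.center j)]
          have h2 : ∑ G ∈ s.erase T, v G * G.center j =
              (∑ G ∈ s.erase T, v G) * (T.center j + σ * (T.len / 2)) := by
            rw [Finset.sum_mul]
            refine Finset.sum_congr rfl fun G hG => ?_
            rw [hcoord G.center (htop' G hG (inner_subset_carrier (center_mem_inner G)))]
          have h3 : ∑ G ∈ s.erase T, v G = -v T := by
            have := hsplit v
            rw [hv] at this
            linarith
          rw [h2, h3]; ring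
        have h4 : |(∑ G ∈ s, v G • G.center) j| ≤ N := by
          rw [← Real.norm_eq_abs]; exact norm_le_pi_norm _ j
        rw [h1, abs_neg, abs_mul, abs_mul, hσ, one_mul, abs_of_pos (by linarith : 0 < T.len / 2)]
          at h4
        exact h4
      -- the new weights
      set v' : Cell → ℝ := fun G => if G = T' then v T' + v T else v G with hv'
      have hsumv : ∀ f : Cell → ℝ, ∑ G ∈ s.erase T, v' G * f G =
          ∑ G ∈ s.erase T, v G * f G + v T * f T' := by
        intro f
        rw [← Finset.add_sum_erase _ _ hT', ← Finset.add_sum_erase (s.erase T) _ hT']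
        have : ∑ G ∈ (s.erase T).erase T', v' G * f G =
            ∑ G ∈ (s.erase T).erase T', v G * f G := by
          refine Finset.sum_congr rfl fun G hG => ?_
          rw [hv']
          simp only [if_neg (Finset.ne_of_mem_erase hG)]
        rw [this, hv']
        simp only [if_true]
        ring
      have hv'0 : ∑ G ∈ s.erase T, v' G = 0 := by
        have h1 := hsumv (fun _ => 1)
        simp only [mul_one] at h1
        rw [h1]
        have := hsplit v
        rw [hv] at this
        linarith
      have hvec : ∑ G ∈ s.erase T, v' G • G.center =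
          ∑ G ∈ s, v G • G.center + v T • (T'.center - T.center) := by
        ext k
        simp only [Finset.sum_apply, Pi.add_apply, Pi.smul_apply, Pi.sub_apply, smul_eq_mul]
        rw [hsumv (fun G => G.center k), hsplit (fun G => v G * G.center k)]
        ring
      have hN' : ‖∑ G ∈ s.erase T, v' G • G.center‖ ≤ 2 * N := by
        rw [hvec]
        refine (norm_add_le _ _).trans ?_
        rw [norm_smul, Real.norm_eq_abs]
        have := mul_le_mul_of_nonneg_left (center_dist (htop T' hT's)) (abs_nonneg (v T))
        linarith
      have hdim' : T'.dim ≤ d := by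
        have := (chain_lt (hs.1 T' hT's) (hs.1 T hT) (htop T' hT's) hT'T).1
        omega
      have hih := ih (s.erase T) hch' T' hT' hdim' htop' l hl
        (fun G hG => hlen G (Finset.mem_of_mem_erase hG)) v' hv'0
      have hvTl : |v T| * l ≤ 2 * N := by
        have := mul_le_mul_of_nonneg_left (hlen T hT) (abs_nonneg (v T))
        linarith
      have hstep : ∀ G ∈ s.erase T, |v' G| * l ≤ (2 ^ (d + 1) - 2) * (2 * N) := fun G hG =>
        (hih G hG).trans (mul_le_mul_of_nonneg_left hN' hpow)
      have hfin : (2 : ℝ) ^ (d + 1 + 1) - 2 = (2 ^ (d + 1) - 2) * 2 + 2 := by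
        rw [pow_succ 2 (d + 1)]; ring
      have hnn : 0 ≤ (2 ^ (d + 1) - 2) * (2 * N) := by positivity
      rw [hfin]
      by_cases hFT : F = T
      · rw [hFT]
        nlinarith
      · have hFe : F ∈ s.erase T := Finset.mem_erase.mpr ⟨hFT, hF⟩
        by_cases hFT' : F = T'
        · have h1 := hstep T' hT'
          have h2 : v' T' = v T' + v T := by rw [hv']; simp
          rw [h2] at h1
          rw [hFT']
          have h3 : |v T'| ≤ |v T' + v T| + |v T| := by
            have : v T' = (v T' + v T) - v T := by ring
            conv_lhs => rw [this]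
            exact abs_sub _ _
          have h4 := mul_le_mul_of_nonneg_right h3 hl.le
          nlinarith
        · have h1 := hstep F hFe
          have h2 : v' F = v F := by rw [hv']; simp [hFT']
          rw [h2] at h1
          nlinarith

/-- Module A2. -/
theorem a2 : A2Statement := by
  intro C _ s hs T hT htop v hv F hF
  have hT5 : T.dim ≤ 5 := by
    have := Finset.card_filter_le (Finset.univ : Finset (Fin 5)) (fun j => Odd (T.q j))
    simpa [Cell.dim] using this
  have hLT := len_pos T
  have h := a2_aux 5 s hs T hT hT5 htop (T.len / 2) (by linarith) ?_ v hv F hF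
  · have hN0 : 0 ≤ ‖∑ G ∈ s, v G • G.center‖ := norm_nonneg _
    norm_num at h
    linarith
  · intro G hG
    have h1 := (carrier_cell (hs.1 T hT) (hs.1 G hG)
      (htop G hG (inner_subset_carrier (center_mem_inner G))) (center_mem_inner G)).2.2
    rcases h1 with h1 | h1
    · rw [Cell.len, Cell.len, h1]
      have := ell_pos T.i
      linarith
    · rw [Cell.len, Cell.len, h1]
      have := ell_succ T.i
      linarith

end Pool.Agent.Helper88Sob
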