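import Mathlib

/-!
# One dimensional facts about dyadic cells (module A1 of MP_60fe1d_an)
-/

set_option autoImplicit false

namespace Pool.Agent.Helper88Sob

/-- floor plus ceiling -/
noncomputable def fc (u : ℝ) : ℤ := ⌊u⌋ + ⌈u⌉

/-- open cell -/
def inn (q : ℤ) (u : ℝ) : Prop := if Odd q then |u - q / 2| < 1 / 2 else u = q / 2

/-- closed cell -/
def car (q : ℤ) (u : ℝ) : Prop := |u - q / 2| ≤ if Odd q then 1 / 2 else 0

/-- star -/
def str (q : ℤ) (u : ℝ) : Prop := |u - q / 2| ≤ if Odd q then 1 / 2 else 1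

/-- face relation -/
def fce (q' q : ℤ) : Prop := q' = q ∨ (Odd q ∧ (q' = q + 1 ∨ q' = q - 1))

/-- parent -/
noncomputable def par (q : ℤ) : ℤ := fc (q / 4)

lemma fc_int (m : ℤ) : fc (m : ℝ) = 2 * m := by
  simp [fc]; ring

lemma fc_of_lt {u : ℝ} {m : ℤ} (h1 : (m : ℝ) < u) (h2 : u < m + 1) : fc u = 2 * m + 1 := by
  have e1 : ⌊u⌋ = m := Int.floor_eq_iff.mpr ⟨h1.le, h2⟩
  have e2 : ⌈u⌉ = m + 1 := by
    rw [Int.ceil_eq_iff]; push_cast
    exact ⟨by linarith, h2.le⟩
  rw [fc, e1, e2]; ring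

lemma fc_cases (u : ℝ) : (∃ m : ℤ, u = m ∧ fc u = 2 * m) ∨
    (∃ m : ℤ, (m : ℝ) < u ∧ u < m + 1 ∧ fc u = 2 * m + 1) := by
  rcases eq_or_lt_of_le (Int.floor_le u) with h | h
  · left
    refine ⟨⌊u⌋, h.symm, ?_⟩
    conv_lhs => rw [← h]
    exact fc_int _
  · right
    exact ⟨⌊u⌋, h, Int.lt_floor_add_one u, fc_of_lt h (Int.lt_floor_add_one u)⟩

lemma odd_two_mul_add_one' (m : ℤ) : Odd (2 * m + 1) := ⟨m, rfl⟩

lemma not_odd_two_mul (m : ℤ) : ¬ Odd (2 * m) := by
  rw [Int.not_odd_iff_even]; exact ⟨m, by ring⟩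

lemma inn_even {m : ℤ} {u : ℝ} : inn (2 * m) u ↔ u = m := by
  rw [inn, if_neg (not_odd_two_mul m)]; push_cast
  constructor
  · intro h; rw [h]; ring
  · intro h; rw [h]; ring

lemma inn_odd {m : ℤ} {u : ℝ} : inn (2 * m + 1) u ↔ (m : ℝ) < u ∧ u < m + 1 := by
  rw [inn, if_pos (odd_two_mul_add_one' m), abs_lt]; push_cast
  constructor
  · rintro ⟨h1, h2⟩; constructor <;> linarith
  · rintro ⟨h1, h2⟩; constructor <;> linarith

lemma car_even {m : ℤ} {u : ℝ} : car (2 * m) u ↔ u = m := by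
  rw [car, if_neg (not_odd_two_mul m), abs_nonpos_iff]; push_cast
  constructor
  · intro h; linarith
  · intro h; rw [h]; ring

lemma car_odd {m : ℤ} {u : ℝ} : car (2 * m + 1) u ↔ (m : ℝ) ≤ u ∧ u ≤ m + 1 := by
  rw [car, if_pos (odd_two_mul_add_one' m), abs_le]; push_cast
  constructor
  · rintro ⟨h1, h2⟩; constructor <;> linarith
  · rintro ⟨h1, h2⟩; constructor <;> linarith

lemma str_even {m : ℤ} {u : ℝ} : str (2 * m) u ↔ (m : ℝ) - 1 ≤ u ∧ u ≤ m + 1 := by
  rw [str, if_neg (not_odd_two_mul m), abs_le]; push_cast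
  constructor
  · rintro ⟨h1, h2⟩; constructor <;> linarith
  · rintro ⟨h1, h2⟩; constructor <;> linarith

lemma str_odd {m : ℤ} {u : ℝ} : str (2 * m + 1) u ↔ (m : ℝ) ≤ u ∧ u ≤ m + 1 := by
  rw [str, if_pos (odd_two_mul_add_one' m), abs_le]; push_cast
  constructor
  · rintro ⟨h1, h2⟩; constructor <;> linarith
  · rintro ⟨h1, h2⟩; constructor <;> linarith

lemma int_cases (q : ℤ) : (∃ m, q = 2 * m) ∨ (∃ m, q = 2 * m + 1) := by
  rcases Int.even_or_odd q with h | h
  · left; obtain ⟨m, hm⟩ := h; exact ⟨m, by omega⟩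
  · right; exact h

/-- d1 -/
lemma inn_fc (u : ℝ) : inn (fc u) u := by
  rcases fc_cases u with ⟨m, h, e⟩ | ⟨m, h1, h2, e⟩
  · rw [e, inn_even]; exact h
  · rw [e, inn_odd]; exact ⟨h1, h2⟩

/-- d2 -/
lemma fc_of_inn {q : ℤ} {u : ℝ} (h : inn q u) : fc u = q := by
  rcases int_cases q with ⟨m, rfl⟩ | ⟨m, rfl⟩
  · rw [inn_even] at h; rw [h]; exact fc_int m
  · rw [inn_odd] at h; exact fc_of_lt h.1 h.2

lemma inn.car {q : ℤ} {u : ℝ} (h : inn q u) : car q u := by
  rcases int_cases q with ⟨m, rfl⟩ | ⟨m, rfl⟩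
  · rw [inn_even] at h; rwa [car_even]
  · rw [inn_odd] at h; rw [car_odd]; exact ⟨h.1.le, h.2.le⟩

lemma car.str {q : ℤ} {u : ℝ} (h : car q u) : str q u := by
  rcases int_cases q with ⟨m, rfl⟩ | ⟨m, rfl⟩
  · rw [car_even] at h; rw [str_even, h]; constructor <;> linarith
  · rw [car_odd] at h; rwa [str_odd]

/-- d4 -/
lemma fce_of_car {q : ℤ} {u : ℝ} (h : car q u) : fce (fc u) q := by
  rcases int_cases q with ⟨m, rfl⟩ | ⟨m, rfl⟩
  · rw [car_even] at h; left; rw [h]; exact fc_int m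
  · rw [car_odd] at h
    rcases eq_or_lt_of_le h.1 with h1 | h1
    · right; refine ⟨odd_two_mul_add_one' m, Or.inr ?_⟩
      rw [← h1, fc_int]; ring
    · rcases eq_or_lt_of_le h.2 with h2 | h2
      · right; refine ⟨odd_two_mul_add_one' m, Or.inl ?_⟩
        rw [h2]
        have : ((m : ℝ) + 1) = ((m + 1 : ℤ) : ℝ) := by push_cast; ring
        rw [this, fc_int]; ring
      · left; exact fc_of_lt h1 h2

/-- d5 -/
lemma fce.car {q' q : ℤ} {u : ℝ} (hf : fce q' q) (h : car q' u) : car q u := by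
  rcases hf with rfl | ⟨ho, hq⟩
  · exact h
  · obtain ⟨m, rfl⟩ := ho
    rcases hq with rfl | rfl
    · have : 2 * m + 1 + 1 = 2 * (m + 1) := by ring
      rw [this, car_even] at h
      rw [car_odd, h]; push_cast; constructor <;> linarith
    · have : 2 * m + 1 - 1 = 2 * m := by ring
      rw [this, car_even] at h
      rw [car_odd, h]; constructor <;> linarith

lemma fce.str {q' q : ℤ} {u : ℝ} (hf : fce q' q) (h : str q u) : str q' u := by
  rcases hf with rfl | ⟨ho, hq⟩
  · exact h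
  · obtain ⟨m, rfl⟩ := ho
    rw [str_odd] at h
    rcases hq with rfl | rfl
    · have : 2 * m + 1 + 1 = 2 * (m + 1) := by ring
      rw [this, str_even]; push_cast; constructor <;> linarith [h.1, h.2]
    · have : 2 * m + 1 - 1 = 2 * m := by ring
      rw [this, str_even]; constructor <;> linarith [h.1, h.2]

/-- d6 -/
lemma par_even (m : ℤ) : par (2 * m) = fc (m / 2) := by
  rw [par]; congr 1; push_cast; ring

lemma par_odd (m : ℤ) : par (2 * m + 1) = 2 * (m / 2) + 1 := by
  rw [par]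
  apply fc_of_lt
  · have h := Int.emod_add_mul_ediv m 2
    rcases Int.emod_two_eq_zero_or_one m with h0 | h0
    · rw [h0] at h
      have h' : (m : ℝ) = 2 * ((m / 2 : ℤ) : ℝ) := by exact_mod_cast (by omega : m = 2 * (m / 2))
      push_cast; linarith
    · rw [h0] at h
      have h' : (m : ℝ) = 2 * ((m / 2 : ℤ) : ℝ) + 1 := by
        exact_mod_cast (by omega : m = 2 * (m / 2) + 1)
      push_cast; linarith
  · rcases Int.emod_two_eq_zero_or_one m with h0 | h0
    · have h' : (m : ℝ) = 2 * ((m / 2 : ℤ) : ℝ) := by exact_mod_cast (by omega : m = 2 * (m / 2))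
      push_cast; linarith
    · have h' : (m : ℝ) = 2 * ((m / 2 : ℤ) : ℝ) + 1 := by
        exact_mod_cast (by omega : m = 2 * (m / 2) + 1)
      push_cast; linarith

lemma half_bounds (m : ℤ) : 2 * ((m / 2 : ℤ) : ℝ) ≤ m ∧ (m : ℝ) + 1 ≤ 2 * ((m / 2 : ℤ) : ℝ) + 2 := by
  constructor
  · exact_mod_cast (by omega : 2 * (m / 2) ≤ m)
  · exact_mod_cast (by omega : m + 1 ≤ 2 * (m / 2) + 2)

lemma fc_half_of_inn {q : ℤ} {u : ℝ} (h : inn q u) : fc (u / 2) = par q := by
  rcases int_cases q with ⟨m, rfl⟩ | ⟨m, rfl⟩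
  · rw [inn_even] at h; rw [h, par_even]
  · rw [inn_odd] at h
    rw [par_odd]
    have := half_bounds m
    apply fc_of_lt <;> linarith [h.1, h.2, this.1, this.2]

/-- d10 -/
lemma car_par {q : ℤ} {u : ℝ} (h : car q u) : car (par q) (u / 2) := by
  rcases int_cases q with ⟨m, rfl⟩ | ⟨m, rfl⟩
  · rw [car_even] at h; rw [h, par_even]; exact (inn_fc _).car
  · rw [car_odd] at h
    rw [par_odd, car_odd]
    have := half_bounds m
    constructor <;> linarith [h.1, h.2, this.1, this.2]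

/-- d7 -/
lemma str_double {v y : ℝ} (h : str (fc (2 * v)) (2 * y)) : str (fc v) y := by
  rcases fc_cases v with ⟨m, hv, e⟩ | ⟨m, h1, h2, e⟩
  · have : fc (2 * v) = 2 * (2 * m) := by
      have : 2 * v = ((2 * m : ℤ) : ℝ) := by push_cast; rw [hv]
      rw [this, fc_int]
    rw [this, str_even] at h
    rw [e, str_even]
    push_cast at h
    constructor <;> linarith [h.1, h.2]
  · rw [e, str_odd]
    rcases lt_trichotomy (2 * v) (2 * m + 1) with h3 | h3 | h3
    · have : fc (2 * v) = 2 * (2 * m) + 1 := by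
        apply fc_of_lt <;> push_cast <;> linarith
      rw [this, str_odd] at h
      push_cast at h
      constructor <;> linarith [h.1, h.2]
    · have : fc (2 * v) = 2 * (2 * m + 1) := by
        have : 2 * v = ((2 * m + 1 : ℤ) : ℝ) := by push_cast; linarith
        rw [this, fc_int]
      rw [this, str_even] at h
      push_cast at h
      constructor <;> linarith [h.1, h.2]
    · have : fc (2 * v) = 2 * (2 * m + 1) + 1 := by
        apply fc_of_lt <;> push_cast <;> linarith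
      rw [this, str_odd] at h
      push_cast at h
      constructor <;> linarith [h.1, h.2]

/-- d8 -/
lemma car_double {v y : ℝ} (h : car (fc (2 * v)) (2 * y)) : car (fc v) y := by
  rcases fc_cases v with ⟨m, hv, e⟩ | ⟨m, h1, h2, e⟩
  · have : fc (2 * v) = 2 * (2 * m) := by
      have : 2 * v = ((2 * m : ℤ) : ℝ) := by push_cast; rw [hv]
      rw [this, fc_int]
    rw [this, car_even] at h
    rw [e, car_even]
    push_cast at h
    linarith
  · rw [e, car_odd]
    rcases lt_trichotomy (2 * v) (2 * m + 1) with h3 | h3 | h3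
    · have : fc (2 * v) = 2 * (2 * m) + 1 := by
        apply fc_of_lt <;> push_cast <;> linarith
      rw [this, car_odd] at h
      push_cast at h
      constructor <;> linarith [h.1, h.2]
    · have : fc (2 * v) = 2 * (2 * m + 1) := by
        have : 2 * v = ((2 * m + 1 : ℤ) : ℝ) := by push_cast; linarith
        rw [this, fc_int]
      rw [this, car_even] at h
      push_cast at h
      constructor <;> linarith
    · have : fc (2 * v) = 2 * (2 * m + 1) + 1 := by
        apply fc_of_lt <;> push_cast <;> linarith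
      rw [this, car_odd] at h
      push_cast at h
      constructor <;> linarith [h.1, h.2]

lemma str_diam {q : ℤ} {u v : ℝ} (h1 : str q u) (h2 : str q v) : |u - v| ≤ 2 := by
  rcases int_cases q with ⟨m, rfl⟩ | ⟨m, rfl⟩
  · rw [str_even] at h1 h2
    rw [abs_le]; constructor <;> linarith [h1.1, h1.2, h2.1, h2.2]
  · rw [str_odd] at h1 h2
    rw [abs_le]; constructor <;> linarith [h1.1, h1.2, h2.1, h2.2]

lemma str_fc {u y : ℝ} (h : str (fc u) y) : |y - u| ≤ 1 := by
  rcases fc_cases u with ⟨m, hu, e⟩ | ⟨m, h1, h2, e⟩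
  · rw [e, str_even] at h
    rw [abs_le, hu]; constructor <;> linarith [h.1, h.2]
  · rw [e, str_odd] at h
    rw [abs_le]; constructor <;> linarith [h.1, h.2]

lemma odd_fc_double {v : ℝ} (h : Odd (fc (2 * v))) : Odd (fc v) := by
  rcases fc_cases v with ⟨m, hv, e⟩ | ⟨m, h1, h2, e⟩
  · exfalso
    have : fc (2 * v) = 2 * (2 * m) := by
      have : 2 * v = ((2 * m : ℤ) : ℝ) := by push_cast; rw [hv]
      rw [this, fc_int]
    rw [this] at h
    exact not_odd_two_mul _ h
  · rw [e]; exact odd_two_mul_add_one' m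

lemma car_abs {q : ℤ} {u : ℝ} (h : car q u) : |(q : ℝ)| ≤ 2 * |u| + 1 := by
  have h1 : |u - q / 2| ≤ 1 / 2 := by
    refine h.trans ?_
    split_ifs <;> norm_num
  have h2 : |(q : ℝ) / 2| ≤ |u| + 1 / 2 := by
    have : (q : ℝ) / 2 = u - (u - q / 2) := by ring
    rw [this]
    exact (abs_sub _ _).trans (by linarith)
  rw [abs_div, abs_two] at h2
  linarith

end Pool.Agent.Helper88Sob
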