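import Pool.Agent.Helper27_Sob.Statements
import Pool.Agent.Helper88_Sob.OneD

/-!
# Module A1 of MP_60fe1d_an: facts about the dyadic complex
-/

set_option autoImplicit false

open Set Filter Topology Metric MeasureTheory

namespace Pool.Agent.Helper88Sob

open Pool.Agent.Helper27Sob

lemma ell_pos (i : ℕ) : 0 < ell i := by unfold ell; positivity

lemma ell_succ (i : ℕ) : ell i = 2 * ell (i + 1) := by unfold ell; rw [pow_succ]; ring

lemma ell_le_of_le {i j : ℕ} (h : i ≤ j) : ell j ≤ ell i :=
  pow_le_pow_of_le_one (by norm_num) (by norm_num) h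

lemma len_pos (F : Cell) : 0 < F.len := ell_pos _

lemma abs_scale {L x q : ℝ} (hL : 0 < L) : |x - q * L / 2| = L * |x / L - q / 2| := by
  have : x - q * L / 2 = L * (x / L - q / 2) := by field_simp
  rw [this, abs_mul, abs_of_pos hL]

lemma mem_carrier {F : Cell} {x : E} : x ∈ F.carrier ↔ ∀ j, car (F.q j) (x j / F.len) := by
  have hL := len_pos F
  refine forall_congr' fun j => ?_
  rw [car, Cell.center, abs_scale hL]
  split_ifs
  · constructor
    · intro h
      have : F.len * |x j / F.len - (F.q j : ℝ) / 2| ≤ F.len * (1 / 2) := by linarith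
      exact le_of_mul_le_mul_left this hL
    · intro h
      have := mul_le_mul_of_nonneg_left h hL.le
      linarith
  · constructor
    · intro h
      have : F.len * |x j / F.len - (F.q j : ℝ) / 2| ≤ F.len * 0 := by linarith
      exact le_of_mul_le_mul_left this hL
    · intro h
      have := mul_le_mul_of_nonneg_left h hL.le
      linarith

lemma mem_star {F : Cell} {x : E} : x ∈ F.star ↔ ∀ j, str (F.q j) (x j / F.len) := by
  have hL := len_pos F
  refine forall_congr' fun j => ?_
  rw [str, Cell.center, abs_scale hL]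
  split_ifs
  · constructor
    · intro h
      have : F.len * |x j / F.len - (F.q j : ℝ) / 2| ≤ F.len * (1 / 2) := by linarith
      exact le_of_mul_le_mul_left this hL
    · intro h
      have := mul_le_mul_of_nonneg_left h hL.le
      linarith
  · constructor
    · intro h
      have : F.len * |x j / F.len - (F.q j : ℝ) / 2| ≤ F.len * 1 := by linarith
      exact le_of_mul_le_mul_left this hL
    · intro h
      have := mul_le_mul_of_nonneg_left h hL.le
      linarith

lemma mem_inner {F : Cell} {x : E} : x ∈ F.inner ↔ ∀ j, inn (F.q j) (x j / F.len) := by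
  have hL := len_pos F
  refine forall_congr' fun j => ?_
  rw [inn, Cell.center, abs_scale hL]
  split_ifs
  · constructor
    · intro h
      have : F.len * |x j / F.len - (F.q j : ℝ) / 2| < F.len * (1 / 2) := by linarith
      exact lt_of_mul_lt_mul_left this hL.le
    · intro h
      have := mul_lt_mul_of_pos_left h hL
      linarith
  · constructor
    · intro h; rw [h]; field_simp
    · intro h; field_simp at h; linarith

lemma inner_subset_carrier {F : Cell} {x : E} (h : x ∈ F.inner) : x ∈ F.carrier :=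
  mem_carrier.mpr fun j => (mem_inner.mp h j).car

lemma carrier_subset_star {F : Cell} {x : E} (h : x ∈ F.carrier) : x ∈ F.star :=
  mem_star.mpr fun j => (mem_carrier.mp h j).str

lemma cellAt_len (i : ℕ) (x : E) : (cellAt i x).len = ell i := rfl

lemma cellAt_q (i : ℕ) (x : E) (j : Fin 5) : (cellAt i x).q j = fc (x j / ell i) := rfl

lemma mem_cellAt_inner (i : ℕ) (x : E) : x ∈ (cellAt i x).inner :=
  mem_inner.mpr fun _ => inn_fc _

lemma cell_ext {F G : Cell} (h1 : F.i = G.i) (h2 : ∀ j, F.q j = G.q j) : F = G := by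
  cases F; cases G
  simp only at h1 h2
  subst h1
  congr
  exact funext h2

lemma cellAt_of_inner {F : Cell} {x : E} (h : x ∈ F.inner) : cellAt F.i x = F :=
  cell_ext rfl fun j => fc_of_inn (mem_inner.mp h j)

lemma center_div (F : Cell) (j : Fin 5) : F.center j / F.len = F.q j / 2 := by
  have hL := len_pos F
  rw [Cell.center]; field_simp

lemma center_mem_inner (F : Cell) : F.center ∈ F.inner := by
  rw [mem_inner]
  intro j
  rw [center_div, inn]
  split_ifs
  · simp
  · rfl

lemma div_ell_succ (t : ℝ) (i : ℕ) : t / ell (i + 1) = 2 * (t / ell i) := by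
  rw [ell_succ i]; have := ell_pos (i + 1); field_simp

/-- the parent is constant on the open cell -/
lemma parent_of_inner {F : Cell} {x : E} {i : ℕ} (hi : F.i = i + 1) (h : x ∈ F.inner) :
    cellAt i x = cellAt i F.center := by
  refine cell_ext rfl fun j => ?_
  have h1 := mem_inner.mp h j
  have h2 := mem_inner.mp (center_mem_inner F) j
  have e : F.len = ell (i + 1) := by rw [Cell.len, hi]
  rw [e, div_ell_succ] at h1 h2
  rw [cellAt_q, cellAt_q]
  have e1 := fc_half_of_inn h1
  have e2 := fc_half_of_inn h2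
  rw [mul_div_cancel_left₀ _ (two_ne_zero)] at e1 e2
  rw [e1, e2]

lemma parent_q {F : Cell} {i : ℕ} (hi : F.i = i + 1) (j : Fin 5) :
    (cellAt i F.center).q j = par (F.q j) := by
  have h2 := mem_inner.mp (center_mem_inner F) j
  have e : F.len = ell (i + 1) := by rw [Cell.len, hi]
  rw [e, div_ell_succ] at h2
  rw [cellAt_q]
  have e2 := fc_half_of_inn h2
  rwa [mul_div_cancel_left₀ _ (two_ne_zero)] at e2

/-- face relation for cells of the same scale -/
def Fce (F' F : Cell) : Prop := F'.i = F.i ∧ ∀ j, fce (F'.q j) (F.q j)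

lemma Fce.len {F' F : Cell} (h : Fce F' F) : F'.len = F.len := by rw [Cell.len, Cell.len, h.1]

lemma Fce.carrier {F' F : Cell} (h : Fce F' F) : F'.carrier ⊆ F.carrier := by
  intro x hx
  rw [mem_carrier] at hx ⊢
  intro j
  rw [← h.len]
  exact (h.2 j).car (hx j)

lemma Fce.star {F' F : Cell} (h : Fce F' F) : F.star ⊆ F'.star := by
  intro x hx
  rw [mem_star] at hx ⊢
  intro j
  rw [h.len]
  exact (h.2 j).str (hx j)

lemma Fce.unref {C : Set E} {F' F : Cell} (h : Fce F' F) (hu : Unref C F') : Unref C F := by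
  intro y hy c hc
  rw [← h.len]
  exact hu y (h.star hy) c hc

lemma Fce.dim {F' F : Cell} (h : Fce F' F) : F' = F ∨ F'.dim < F.dim := by
  by_cases he : F' = F
  · exact Or.inl he
  right
  apply Finset.card_lt_card
  rw [Finset.ssubset_iff_of_subset]
  · have : ∃ j, F'.q j ≠ F.q j := by
      by_contra hcon
      push Not at hcon
      exact he (cell_ext h.1 hcon)
    obtain ⟨j, hj⟩ := this
    refine ⟨j, ?_, ?_⟩
    · simp only [Finset.mem_filter, Finset.mem_univ, true_and]
      rcases h.2 j with h' | h'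
      · exact absurd h' hj
      · exact h'.1
    · simp only [Finset.mem_filter, Finset.mem_univ, true_and]
      rcases h.2 j with h' | ⟨ho, h' | h'⟩
      · exact absurd h' hj
      · rw [h', Int.not_odd_iff_even]; exact ho.add_odd odd_one
      · rw [h', Int.not_odd_iff_even]; exact ho.sub_odd odd_one
  · intro j hj
    simp only [Finset.mem_filter, Finset.mem_univ, true_and] at hj ⊢
    rcases h.2 j with h' | h'
    · rwa [← h']
    · exact h'.1

lemma fce_cellAt {F : Cell} {x : E} (h : x ∈ F.carrier) : Fce (cellAt F.i x) F :=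
  ⟨rfl, fun j => fce_of_car (mem_carrier.mp h j)⟩

lemma star_mono (i : ℕ) (x : E) : (cellAt (i + 1) x).star ⊆ (cellAt i x).star := by
  intro y hy
  rw [mem_star] at hy ⊢
  intro j
  have := hy j
  rw [cellAt_q, cellAt_len, div_ell_succ, div_ell_succ] at this
  exact str_double this

lemma carrier_mono (i : ℕ) (x : E) : (cellAt (i + 1) x).carrier ⊆ (cellAt i x).carrier := by
  intro y hy
  rw [mem_carrier] at hy ⊢
  intro j
  have := hy j
  rw [cellAt_q, cellAt_len, div_ell_succ, div_ell_succ] at this
  exact car_double this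

lemma dim_mono (i : ℕ) (x : E) : (cellAt (i + 1) x).dim ≤ (cellAt i x).dim := by
  apply Finset.card_le_card
  intro j hj
  simp only [Finset.mem_filter, Finset.mem_univ, true_and] at hj ⊢
  rw [cellAt_q, div_ell_succ] at hj
  exact odd_fc_double hj

lemma unref_succ {C : Set E} {i : ℕ} {x : E} (h : Unref C (cellAt i x)) :
    Unref C (cellAt (i + 1) x) := by
  intro y hy c hc
  refine le_trans ?_ (h y (star_mono i x hy) c hc)
  exact ell_le_of_le (Nat.le_succ i)

lemma unref_mono {C : Set E} {i k : ℕ} {x : E} (hik : i ≤ k) (h : Unref C (cellAt i x)) :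
    Unref C (cellAt k x) := by
  induction k, hik using Nat.le_induction with
  | base => exact h
  | succ k _ ih => exact unref_succ ih

lemma star_norm {i : ℕ} {x y : E} (h : y ∈ (cellAt i x).star) : ‖y - x‖ ≤ ell i := by
  rw [mem_star] at h
  rw [pi_norm_le_iff_of_nonneg (ell_pos i).le]
  intro j
  have h1 := str_fc (h j)
  rw [cellAt_len, ← sub_div, abs_div, abs_of_pos (ell_pos i), div_le_one (ell_pos i)] at h1
  simpa [Real.norm_eq_abs] using h1

lemma star_diam {F : Cell} {x y : E} (hx : x ∈ F.star) (hy : y ∈ F.star) :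
    ‖x - y‖ ≤ 2 * F.len := by
  rw [mem_star] at hx hy
  rw [pi_norm_le_iff_of_nonneg (by have := len_pos F; linarith)]
  intro j
  have h1 := str_diam (hx j) (hy j)
  rw [← sub_div, abs_div, abs_of_pos (len_pos F), div_le_iff₀ (len_pos F)] at h1
  simpa [Real.norm_eq_abs] using h1

lemma unref_of_far {C : Set E} {i : ℕ} {x : E} (h : ∀ c ∈ C, 2 * ell i ≤ ‖x - c‖) :
    Unref C (cellAt i x) := by
  intro y hy c hc
  have h1 := star_norm hy
  have h2 := h c hc
  have h3 : ‖x - c‖ ≤ ‖y - x‖ + ‖y - c‖ := by
    have : x - c = -(y - x) + (y - c) := by abel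
    rw [this]
    exact (norm_add_le _ _).trans (by rw [norm_neg])
  rw [cellAt_len]
  linarith

lemma exists_ell_lt {d : ℝ} (hd : 0 < d) : ∃ i, ell i < d := by
  obtain ⟨n, hn⟩ := exists_pow_lt_of_lt_one hd (by norm_num : (1 / 2 : ℝ) < 1)
  exact ⟨n, hn⟩

lemma exists_unref {C : Set E} (hC : IsClosed C) {x : E} (hx : x ∉ C) :
    ∃ i, Unref C (cellAt i x) := by
  obtain ⟨r, hr, hball⟩ := Metric.isOpen_iff.mp hC.isOpen_compl x hx
  obtain ⟨i, hi⟩ := exists_ell_lt (half_pos hr)
  refine ⟨i, unref_of_far fun c hc => ?_⟩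
  by_contra hlt
  push Not at hlt
  have : c ∈ ball x r := by
    rw [mem_ball, dist_comm, dist_eq_norm]; linarith
  exact hball this hc

/-- characterisation of the carrier cell -/
lemma isC_iff {C : Set E} {F : Cell} {x : E} (hx : x ∈ F.inner) :
    IsC C F ↔ Unref C (cellAt F.i x) ∧ ∀ k, F.i = k + 1 → ¬ Unref C (cellAt k x) := by
  rw [cellAt_of_inner hx, IsC]
  refine and_congr_right fun _ => ?_
  constructor
  · rintro h k hk
    rcases h with h | h
    · omega
    · rw [hk, Nat.add_sub_cancel] at h
      rwa [parent_of_inner hk hx]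
  · intro h
    rcases Nat.eq_zero_or_pos F.i with h0 | h0
    · exact Or.inl h0
    · right
      obtain ⟨k, hk⟩ : ∃ k, F.i = k + 1 := ⟨F.i - 1, by omega⟩
      rw [hk, Nat.add_sub_cancel, ← parent_of_inner hk hx]
      exact h k hk

lemma scale_eq {C : Set E} {F G : Cell} {x : E} (hF : IsC C F) (hG : IsC C G)
    (hxF : x ∈ F.inner) (hxG : x ∈ G.inner) : F.i = G.i := by
  obtain ⟨f1, f2⟩ := (isC_iff hxF).mp hF
  obtain ⟨g1, g2⟩ := (isC_iff hxG).mp hG
  rcases lt_trichotomy F.i G.i with h | h | h
  · exfalso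
    exact g2 (G.i - 1) (by omega) (unref_mono (by omega) f1)
  · exact h
  · exfalso
    exact f2 (F.i - 1) (by omega) (unref_mono (by omega) g1)

lemma exists_cell {C : Set E} (hC : IsClosed C) {x : E} (hx : x ∉ C) :
    ∃ F, IsC C F ∧ x ∈ F.inner := by
  classical
  have hex := exists_unref hC hx
  set i := Nat.find hex with hi
  refine ⟨cellAt i x, ?_, mem_cellAt_inner i x⟩
  rw [isC_iff (mem_cellAt_inner i x)]
  refine ⟨Nat.find_spec hex, fun k hk => ?_⟩
  have hk' : i = k + 1 := hk
  exact Nat.find_min hex (by omega)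

lemma cell_unique {C : Set E} {F G : Cell} {x : E} (hF : IsC C F) (hG : IsC C G)
    (hxF : x ∈ F.inner) (hxG : x ∈ G.inner) : F = G := by
  rw [← cellAt_of_inner hxF, ← cellAt_of_inner hxG, scale_eq hF hG hxF hxG]

lemma dist_C {C : Set E} {F : Cell} (hF : IsC C F) {x : E} (hx : x ∈ F.carrier) {c : E}
    (hc : c ∈ C) : F.len ≤ ‖x - c‖ := hF.1 x (carrier_subset_star hx) c hc

/-- the parent of the cell of a point of the closed cell is a face of the parent -/
lemma fce_parent {F : Cell} {i : ℕ} (hi : F.i = i + 1) {x : E} (hx : x ∈ F.carrier) :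
    Fce (cellAt i x) (cellAt i F.center) := by
  refine ⟨rfl, fun j => ?_⟩
  rw [parent_q hi, cellAt_q]
  have h := mem_carrier.mp hx j
  have e : F.len = ell (i + 1) := by rw [Cell.len, hi]
  rw [e, div_ell_succ] at h
  have h2 := car_par h
  rw [mul_div_cancel_left₀ _ (two_ne_zero)] at h2
  exact fce_of_car h2

lemma carrier_cell {C : Set E} {F G : Cell} {x : E} (hF : IsC C F) (hG : IsC C G)
    (hxF : x ∈ F.carrier) (hxG : x ∈ G.inner) :
    G.carrier ⊆ F.carrier ∧ (G = F ∨ G.dim < F.dim) ∧ (G.i = F.i ∨ G.i = F.i + 1) := by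
  obtain ⟨g1, g2⟩ := (isC_iff hxG).mp hG
  have hface := fce_cellAt hxF
  by_cases hu : Unref C (cellAt F.i x)
  · have hi : G.i = F.i := by
      rcases lt_trichotomy G.i F.i with h | h | h
      · exfalso
        obtain ⟨k, hk⟩ : ∃ k, F.i = k + 1 := ⟨F.i - 1, by omega⟩
        have h1 : Unref C (cellAt k x) := unref_mono (by omega) g1
        have h2 := (fce_parent hk hxF).unref h1
        rcases hF.2 with h3 | h3
        · omega
        · rw [hk, Nat.add_sub_cancel] at h3; exact h3 h2
      · exact h
      · exfalso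
        exact g2 (G.i - 1) (by omega) (unref_mono (by omega) hu)
    have hG' : G = cellAt F.i x := by rw [← hi, cellAt_of_inner hxG]
    rw [hG']
    exact ⟨hface.carrier, hface.dim, Or.inl rfl⟩
  · have hu1 : Unref C (cellAt (F.i + 1) x) := by
      refine unref_of_far fun c hc => ?_
      rw [← ell_succ]
      exact dist_C hF hxF hc
    have hi : G.i = F.i + 1 := by
      rcases lt_trichotomy G.i (F.i + 1) with h | h | h
      · exfalso
        exact hu (unref_mono (by omega) g1)
      · exact h
      · exfalso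
        exact g2 (G.i - 1) (by omega) (unref_mono (by omega) hu1)
    have hG' : G = cellAt (F.i + 1) x := by rw [← hi, cellAt_of_inner hxG]
    have hne : cellAt F.i x ≠ F := by
      intro h; rw [h] at hu; exact hu hF.1
    have hd : (cellAt F.i x).dim < F.dim := (hface.dim).resolve_left hne
    refine ⟨?_, Or.inr ?_, Or.inr hi⟩
    · rw [hG']; exact (carrier_mono _ _).trans hface.carrier
    · rw [hG']; exact (dim_mono _ _).trans_lt hd

/-- points of complex cells are at distance `< 6 len` from `C` -/
lemma near_C {C : Set E} {F : Cell} (hF : IsC C F) (hi : F.i ≠ 0) {x : E}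
    (hx : x ∈ F.carrier) : ∃ c ∈ C, ‖x - c‖ < 6 * F.len := by
  obtain ⟨k, hk⟩ : ∃ k, F.i = k + 1 := ⟨F.i - 1, by omega⟩
  rcases hF.2 with h | h
  · exact absurd h hi
  · rw [hk, Nat.add_sub_cancel, Unref] at h
    push Not at h
    obtain ⟨y, hy, c, hc, hlt⟩ := h
    refine ⟨c, hc, ?_⟩
    have hxs : x ∈ (cellAt k F.center).star := by
      apply carrier_subset_star
      rw [mem_carrier]
      intro j
      rw [parent_q hk]
      have h := mem_carrier.mp hx j
      have e : F.len = ell (k + 1) := by rw [Cell.len, hk]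
      rw [e, div_ell_succ] at h
      have h2 := car_par h
      rw [mul_div_cancel_left₀ _ (two_ne_zero)] at h2
      exact h2
    have h1 := star_diam hxs hy
    rw [cellAt_len] at h1 hlt
    have e : F.len = ell (k + 1) := by rw [Cell.len, hk]
    rw [e]
    have h3 := ell_succ k
    have h4 : ‖x - c‖ ≤ ‖x - y‖ + ‖y - c‖ := by
      have : x - c = (x - y) + (y - c) := by abel
      rw [this]
      exact norm_add_le _ _
    linarith

lemma finite_scale (i : ℕ) (R : ℝ) :
    {F : Cell | F.i = i ∧ ∃ x ∈ F.carrier, ‖x‖ ≤ R}.Finite := by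
  obtain ⟨N, hN⟩ := exists_nat_ge (2 * (R / ell i) + 1)
  have hfin : (Set.univ.pi fun _ : Fin 5 => Set.Icc (-(N : ℤ)) N).Finite :=
    Set.Finite.pi fun _ => Set.finite_Icc _ _
  refine (hfin.image fun q => (⟨i, q⟩ : Cell)).subset ?_
  rintro F ⟨hFi, x, hx, hxR⟩
  refine ⟨F.q, ?_, ?_⟩
  · intro j _
    have h1 := car_abs (mem_carrier.mp hx j)
    have h2 : |x j / F.len| ≤ R / ell i := by
      rw [abs_div, abs_of_pos (len_pos F), Cell.len, hFi]
      refine div_le_div_of_nonneg_right ?_ (ell_pos i).le
      exact (norm_le_pi_norm x j).trans hxR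
    have h3 : |((F.q j : ℤ) : ℝ)| ≤ N := by linarith
    rw [abs_le] at h3
    constructor
    · exact_mod_cast h3.1
    · exact_mod_cast h3.2
  · exact cell_ext hFi.symm fun _ => rfl

lemma finite_cells {C : Set E} (hC : IsClosed C) {K : Set E} (hK : IsCompact K)
    (hKC : Disjoint K C) : {F | IsC C F ∧ (F.carrier ∩ K).Nonempty}.Finite := by
  obtain ⟨δ, hδ, hdist⟩ : ∃ δ > 0, ∀ x ∈ K, ∀ c ∈ C, δ ≤ ‖x - c‖ := by
    obtain ⟨δ, hδ, h⟩ := Metric.exists_pos_forall_lt_edist hK hC hKC
    refine ⟨δ, by exact_mod_cast hδ, fun x hx c hc => ?_⟩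
    have h1 := h x hx c hc
    rw [edist_nndist, ENNReal.coe_lt_coe] at h1
    have h2 : (δ : ℝ) < dist x c := by exact_mod_cast h1
    rw [dist_eq_norm] at h2
    exact h2.le
  obtain ⟨R, hR⟩ := hK.isBounded.exists_norm_le
  obtain ⟨n, hn⟩ := exists_ell_lt (show 0 < δ / 6 by positivity)
  refine (Set.Finite.biUnion (Set.finite_Iio (n + 1)) fun i _ => finite_scale i R).subset ?_
  rintro F ⟨hF, x, hxF, hxK⟩
  simp only [mem_iUnion, mem_Iio, mem_ofPred_eq]
  refine ⟨F.i, ?_, rfl, x, hxF, hR x hxK⟩
  by_contra hlt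
  push Not at hlt
  obtain ⟨c, hc, hlt'⟩ := near_C hF (by omega) hxF
  have h1 := hdist x hxK c hc
  have h2 : F.len ≤ ell n := ell_le_of_le (by omega)
  linarith

lemma carrier_closed (F : Cell) : IsClosed F.carrier := by
  have : F.carrier = ⋂ j, {x : E | |x j - F.center j| ≤ if Odd (F.q j) then F.len / 2 else 0} := by
    ext x; simp [Cell.carrier]
  rw [this]
  refine isClosed_iInter fun j => ?_
  exact isClosed_le (by fun_prop) continuous_const

lemma compact_KK {C : Set E} (hC : IsCompact C) (R : ℝ) : IsCompact (KK C R) := by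
  rw [Metric.isCompact_iff_isClosed_bounded]
  constructor
  · rw [← isOpen_compl_iff, Metric.isOpen_iff]
    intro x hx
    have hxC : x ∉ C := fun h => hx (Or.inl h)
    obtain ⟨r, hr, hball⟩ := Metric.isOpen_iff.mp hC.isClosed.isOpen_compl x hxC
    have hdisj : Disjoint (closedBall x (r / 2)) C := by
      rw [Set.disjoint_left]
      intro y hy
      exact hball (closedBall_subset_ball (by linarith) hy)
    have hfin := finite_cells hC.isClosed (isCompact_closedBall x (r / 2)) hdisj
    have hclosed : IsClosed (⋃ F ∈ {F | IsC C F ∧ (F.carrier ∩ closedBall x (r / 2)).Nonempty} ∩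
        K2 C R, F.carrier) :=
      (hfin.inter_of_left _).isClosed_biUnion fun F _ => carrier_closed F
    have hxn : x ∈ (⋃ F ∈ {F | IsC C F ∧ (F.carrier ∩ closedBall x (r / 2)).Nonempty} ∩
        K2 C R, F.carrier)ᶜ := by
      intro hmem
      simp only [mem_iUnion] at hmem
      obtain ⟨F, hF, hxF⟩ := hmem
      exact hx (Or.inr (by simp only [mem_iUnion]; exact ⟨F, hF.2, hxF⟩))
    obtain ⟨s, hs, hsub⟩ := Metric.isOpen_iff.mp hclosed.isOpen_compl x hxn
    refine ⟨min s (r / 2), by positivity, ?_⟩
    rintro y hy (hyC | hyK)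
    · exact hball (ball_subset_ball (by
        have := min_le_right s (r / 2); linarith) hy) hyC
    · simp only [mem_iUnion] at hyK
      obtain ⟨F, hF, hyF⟩ := hyK
      have hy1 : y ∈ ball x s := ball_subset_ball (min_le_left _ _) hy
      have hy2 : y ∈ closedBall x (r / 2) :=
        ball_subset_closedBall (ball_subset_ball (min_le_right _ _) hy)
      apply hsub hy1
      simp only [mem_iUnion]
      exact ⟨F, ⟨⟨hF.1, y, hyF, hy2⟩, hF⟩, hyF⟩
  · refine (hC.isBounded.union (isBounded_closedBall (x := (0 : E)) (r := R))).subset ?_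
    rintro y (hy | hy)
    · exact Or.inl hy
    · simp only [mem_iUnion] at hy
      obtain ⟨F, hF, hyF⟩ := hy
      exact Or.inr (hF.2.2 hyF)

/-- Module A1. -/
theorem a1 : A1Statement := by
  intro C hC
  exact ⟨fun x hx => exists_cell hC hx, fun F G x hF hG => cell_unique hF hG,
    fun F G x hF hG hxF hxG => carrier_cell hF hG hxF hxG,
    fun F hF x hx c hc => dist_C hF hx hc, fun K hK hKC => finite_cells hC hK hKC,
    fun hCc R => compact_KK hCc R⟩

end Pool.Agent.Helper88Sob
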